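import Pool.Agent.H332.HT.Defs

/-! # Goodness of an arc is open -/

set_option autoImplicit false

open Pool.Agent.H332.HT

namespace Pool.Agent.H348.HT.Gop

theorem gop (hc : S_Cop) : S_gop := by
  intro K hK q hq a b hab hgood
  obtain ⟨d, hd⟩ := hgood
  -- the open set of pairs `(t, z)`
  have hU : IsOpen {x : V3 | d ∈ C K x} := by
    have h1 : Continuous fun x : V3 => ((x, d) : V3 × V3) := by fun_prop
    exact (hc K).preimage h1
  have hm : Continuous fun y : ℝ × ℝ => ((q y.1, y.2) : V3) :=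
    (hq.cont.comp continuous_fst).prodMk continuous_snd
  have hn : IsOpen {y : ℝ × ℝ | ((q y.1, y.2) : V3) ∉ K ∨ d ∈ C K (q y.1, y.2)} := by
    have h1 : IsOpen {y : ℝ × ℝ | ((q y.1, y.2) : V3) ∉ K} :=
      hK.cpt.isClosed.isOpen_compl.preimage hm
    have h2 : IsOpen {y : ℝ × ℝ | d ∈ C K (q y.1, y.2)} := hU.preimage hm
    exact h1.union h2
  have hsub : Set.Icc a b ×ˢ Set.Icc (-1 : ℝ) 1 ⊆
      {y : ℝ × ℝ | ((q y.1, y.2) : V3) ∉ K ∨ d ∈ C K (q y.1, y.2)} := by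
    rintro ⟨t, z⟩ ⟨ht, -⟩
    by_cases hz : ((q t, z) : V3) ∈ K
    · exact Or.inr (hd t ht.1 ht.2 z hz)
    · exact Or.inl hz
  obtain ⟨u, v, hu, -, hau, hzv, huv⟩ :=
    generalized_tube_lemma isCompact_Icc isCompact_Icc hn hsub
  obtain ⟨e₁, he₁, h₁⟩ := Metric.isOpen_iff.1 hu a (hau ⟨le_rfl, hab⟩)
  obtain ⟨e₂, he₂, h₂⟩ := Metric.isOpen_iff.1 hu b (hau ⟨hab, le_rfl⟩)
  refine ⟨min e₁ e₂ / 2, by positivity, d, fun t ht1 ht2 z hz => ?_⟩
  have hm1 : min e₁ e₂ ≤ e₁ := min_le_left _ _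
  have hm2 : min e₁ e₂ ≤ e₂ := min_le_right _ _
  have hm0 : 0 < min e₁ e₂ := lt_min he₁ he₂
  have htu : t ∈ u := by
    rcases lt_or_ge t a with h | h
    · apply h₁
      rw [Metric.mem_ball, Real.dist_eq, abs_lt]
      constructor <;> linarith
    · rcases le_or_gt t b with h' | h'
      · exact hau ⟨h, h'⟩
      · apply h₂
        rw [Metric.mem_ball, Real.dist_eq, abs_lt]
        constructor <;> linarith
  have hzv' : z ∈ v := hzv (abs_le.1 (hK.ht _ z hz))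
  rcases huv (Set.mk_mem_prod htu hzv') with h | h
  · exact absurd hz h
  · exact h

end Pool.Agent.H348.HT.Gop
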